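import Mathlib

set_option autoImplicit false

namespace Pool.Agent.Results.MP_86031e_co.FourFifths

open Finset

/-- The generalized Petersen graph `P(n,k)`: `(i, false)` is `u_i` and `(i, true)` is `v_i`. -/
def GP (n k : ℕ) : SimpleGraph (ZMod n × Bool) :=
  SimpleGraph.fromRel (fun x y =>
    (x.2 = false ∧ y.2 = false ∧ y.1 = x.1 + 1) ∨ (x.2 = false ∧ y.2 = true ∧ y.1 = x.1) ∨
      (x.2 = true ∧ y.2 = true ∧ y.1 = x.1 + (k : ZMod n)))

/-- A pair of index sets that gives an independent set. -/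
def Good (n : ℕ) (s t : ZMod n) (m : ℕ) : Prop :=
  ∃ A B : Finset (ZMod n), Disjoint A B ∧ (∀ i ∈ A, i + s ∉ A) ∧ (∀ i ∈ B, i + t ∉ B) ∧
    m ≤ A.card + B.card

def low (n : ℕ) (z : ℤ) : Prop := z % (2 * n) < n

instance (n : ℕ) (z : ℤ) : Decidable (low n z) := by unfold low; infer_instance

lemma emod_cases {n : ℕ} (hn : 0 < n) (z : ℤ) :
    ∃ q r : ℤ, z = r + 2 * n * q ∧ 0 ≤ r ∧ r < 2 * n ∧ z % (2 * n) = r :=
  ⟨z / (2 * n), z % (2 * n), (Int.emod_add_mul_ediv _ _).symm, Int.emod_nonneg _ (by omega),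
    Int.emod_lt_of_pos _ (by omega), rfl⟩

lemma low_add (n : ℕ) (z q : ℤ) : low n (z + 2 * n * q) ↔ low n z := by
  unfold low; rw [Int.add_mul_emod_self_left]

lemma low_small {n : ℕ} {z : ℤ} (h0 : 0 ≤ z) (h1 : z < 2 * n) : low n z ↔ z < n := by
  unfold low; rw [Int.emod_eq_of_lt h0 h1]

lemma low_flip {n : ℕ} (hn : 0 < n) (z : ℤ) : low n (z + n) ↔ ¬ low n z := by
  obtain ⟨q, r, rfl, h0, h1, -⟩ := emod_cases hn z
  rw [show r + 2 * n * q + n = r + n + 2 * n * q by ring, low_add, low_add, low_small h0 h1]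
  by_cases h : r < n
  · rw [low_small (by omega) (by omega)]; omega
  · rw [show r + n = r - n + 2 * n * 1 by ring, low_add, low_small (by omega) (by omega)]; omega

lemma cnt {n : ℕ} (hn : 0 < n) (y b : ℤ) :
    ((range (2 * n)).filter (fun θ : ℕ => low n (y + θ) ∧ low n (y + θ + n + b))).card
      ≤ b.natAbs := by
  have : (if 0 ≤ b then Ico ((n : ℤ) - b) n else Ico 0 (-b)).card = b.natAbs := by
    split_ifs <;> simp <;> omega
  rw [← this]
  refine card_le_card_of_injOn (fun θ : ℕ => (y + θ) % (2 * n)) ?_ ?_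
  · intro θ hθ
    obtain ⟨-, h1, h2⟩ := mem_filter.1 (mem_coe.1 hθ)
    obtain ⟨q, r, e, h0, h3, e'⟩ := emod_cases hn (y + θ)
    simp only [e', mem_coe]
    rw [e, low_add, low_small h0 h3] at h1
    rw [e, show r + 2 * n * q + n + b = r + n + b + 2 * n * q by ring, low_add] at h2
    split_ifs with hb
    · rw [mem_Ico]
      by_contra hc
      rw [low_small (by omega) (by omega)] at h2
      omega
    · rw [mem_Ico]
      by_contra hc
      rw [low_small (by omega) (by omega)] at h2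
      omega
  · intro θ hθ θ' hθ' e
    have h1 := mem_range.1 (mem_filter.1 (mem_coe.1 hθ)).1
    have h2 := mem_range.1 (mem_filter.1 (mem_coe.1 hθ')).1
    have h3 : (θ : ℤ) ≡ θ' [ZMOD (2 * n)] := Int.ModEq.add_left_cancel' y e
    have h4 := Int.eq_of_sub_eq_zero (Int.eq_zero_of_abs_lt_dvd h3.dvd (by
      rw [abs_lt]; constructor <;> omega))
    omega

lemma avg {n : ℕ} [NeZero n] (k : ℕ) (a j : ℤ) (m : ℕ)
    (h : (2 * a - n).natAbs + (2 * a * k - n - 2 * n * j).natAbs + 2 * m ≤ 2 * n + 1) :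
    Good n 1 k m := by
  have hn : 0 < n := Nat.pos_of_ne_zero (NeZero.ne n)
  set b := 2 * a - n with hb
  set c := 2 * a * k - n - 2 * n * j with hc
  set x : ZMod n → ℤ := fun i => 2 * a * i.val with hx
  have sh : ∀ (s : ℕ) (i : ZMod n) (θ : ℤ), low n (x (i + s) + θ) ↔ low n (x i + θ + 2 * a * s) := by
    intro s i θ
    have : ((i + s).val : ℤ) = i.val + s + n * (-(((i.val + s) / n : ℕ) : ℤ)) := by
      rw [ZMod.val_add, ZMod.val_natCast, Nat.add_mod_mod]
      have := Nat.mod_add_div (i.val + s) n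
      zify at this ⊢
      linarith
    simp only [hx]
    rw [this, ← low_add n (2 * a * i.val + θ + 2 * a * s) (a * -(((i.val + s) / n : ℕ) : ℤ))]
    congr! 1
    ring
  set C1 : ℕ → Finset (ZMod n) := fun θ =>
    univ.filter (fun i => low n (x i + θ) ∧ low n (x i + θ + n + b)) with hC1
  set C2 : ℕ → Finset (ZMod n) := fun θ =>
    univ.filter (fun i => low n (x i + n + θ) ∧ low n (x i + n + θ + n + c)) with hC2
  have s1 : ∑ θ ∈ range (2 * n), (C1 θ).card ≤ n * b.natAbs := by
    simp only [hC1, card_filter]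
    rw [sum_comm]
    refine (sum_le_card_nsmul _ _ b.natAbs (fun i _ => ?_)).trans (by simp)
    rw [← card_filter]; exact cnt hn _ _
  have s2 : ∑ θ ∈ range (2 * n), (C2 θ).card ≤ n * c.natAbs := by
    simp only [hC2, card_filter]
    rw [sum_comm]
    refine (sum_le_card_nsmul _ _ c.natAbs (fun i _ => ?_)).trans (by simp)
    rw [← card_filter]; exact cnt hn _ _
  obtain ⟨θ, -, hθ⟩ : ∃ θ ∈ range (2 * n),
      2 * ((C1 θ).card + (C2 θ).card) ≤ b.natAbs + c.natAbs := by
    by_contra hh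
    push Not at hh
    have := card_nsmul_le_sum (range (2 * n)) (fun θ => 2 * ((C1 θ).card + (C2 θ).card))
      (b.natAbs + c.natAbs + 1) (fun θ h => hh θ h)
    rw [← mul_sum, sum_add_distrib, card_range, smul_eq_mul] at this
    nlinarith
  set L := univ.filter (fun i : ZMod n => low n (x i + θ)) with hL
  set L' := univ.filter (fun i : ZMod n => ¬ low n (x i + θ)) with hL'
  refine ⟨L \ C1 θ, L' \ C2 θ, ?_, ?_, ?_, ?_⟩
  · exact Disjoint.mono sdiff_subset sdiff_subset (disjoint_filter_filter_not _ _ _)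
  · intro i hi hi'
    simp only [hL, hC1, mem_sdiff, mem_filter, mem_univ, true_and] at hi hi'
    have := (sh 1 i θ).1 (by simpa using hi'.1)
    exact hi.2 ⟨hi.1, by convert this using 1; rw [hb]; push_cast; ring⟩
  · intro i hi hi'
    simp only [hL', hC2, mem_sdiff, mem_filter, mem_univ, true_and] at hi hi'
    have := mt (sh k i θ).2 hi'.1
    refine hi.2 ⟨?_, ?_⟩
    · rw [show x i + n + θ = x i + θ + n by ring, low_flip hn]; exact hi.1
    · rw [show x i + n + θ + n + c = x i + θ + 2 * a * k + n + 2 * n * (-j) by rw [hc]; ring,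
        low_add, low_flip hn]
      exact this
  · have e : L.card + L'.card = n := by
      rw [hL, hL', card_filter_add_card_filter_not]; simp
    have := le_card_sdiff (C1 θ) L
    have := le_card_sdiff (C2 θ) L'
    omega

def Short (n k M : ℕ) : Prop :=
  ∃ p q s : ℤ, p * k - q = n * s ∧ (p ≠ 0 ∨ q ≠ 0) ∧ p.natAbs ≤ M ∧ q.natAbs ≤ M

lemma thue {n : ℕ} (hn : 0 < n) (k : ℕ) : Short n k (Nat.sqrt n) := by
  set r := Nat.sqrt n with hr
  have : NeZero n := ⟨by omega⟩
  obtain ⟨x, y, hne, e⟩ := Fintype.exists_ne_map_eq_of_card_lt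
    (fun x : Fin (r + 1) × Fin (r + 1) => ((x.1.val * k - x.2.val : ℤ) : ZMod n))
    (by simpa using Nat.lt_succ_sqrt n)
  obtain ⟨s, hs⟩ := (ZMod.intCast_eq_intCast_iff_dvd_sub _ _ _).1 e
  have h1 := x.1.2
  have h2 := x.2.2
  have h3 := y.1.2
  have h4 := y.2.2
  refine ⟨y.1.val - x.1.val, y.2.val - x.2.val, s, by linear_combination hs, ?_, by omega,
    by omega⟩
  by_contra hh
  exact hne (Prod.ext (Fin.ext (by omega)) (Fin.ext (by omega)))

lemma near (p w : ℤ) (hp : p ≠ 0) : ∃ α : ℤ, (2 * α * p + w).natAbs ≤ p.natAbs := by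
  have h1 := Int.emod_add_mul_ediv (w + |p|) (2 * p)
  have h2 := Int.emod_nonneg (w + |p|) (show 2 * p ≠ 0 by omega)
  have h3 := Int.emod_lt_abs (w + |p|) (show 2 * p ≠ 0 by omega)
  refine ⟨-((w + |p|) / (2 * p)), ?_⟩
  have e : 2 * -((w + |p|) / (2 * p)) * p + w = (w + |p|) % (2 * p) - |p| := by
    linear_combination -h1
  rw [e]
  rw [abs_mul, abs_two] at h3
  have : |p| = p.natAbs := by simp
  omega

lemma finish {n M B C ε : ℕ} (hn : 100 ≤ n) (hM : M * M ≤ n) (h1 : 1 ≤ M) (hB : B ≤ M)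
    (hC : M * C ≤ n * ε + M * M) (hε : ε ≤ 1) (h3 : ε = 0 ∨ 3 ≤ M) :
    B + C + 2 * (4 * n / 5) ≤ 2 * n + 1 := by
  have key : 5 * (B + C) ≤ 2 * n := by
    rcases h3 with rfl | h3
    · have : C ≤ M := Nat.le_of_mul_le_mul_left (by omega) h1
      by_cases h : M ≤ 10
      · omega
      · nlinarith
    · have hC' : M * C ≤ n + M * M := by nlinarith
      by_cases h : M ≤ 7
      · interval_cases M <;> omega
      · have : M * (5 * (B + C)) ≤ M * (2 * n) := by nlinarith
        exact Nat.le_of_mul_le_mul_left this h1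
  omega

lemma lattice {n k : ℕ} (hn : 100 ≤ n) (hk : 1 ≤ k) (hkn : 2 * k + 1 < n) (h2 : k ≠ 2) :
    ∃ a j : ℤ, (2 * a - n).natAbs + (2 * a * k - n - 2 * n * j).natAbs + 2 * (4 * n / 5)
      ≤ 2 * n + 1 := by
  classical
  have ex : ∃ M, Short n k M := ⟨_, thue (by omega) k⟩
  set M := Nat.find ex with hM
  have hMn : M * M ≤ n :=
    (Nat.mul_le_mul (Nat.find_le (thue (by omega) k)) (Nat.find_le (thue (by omega) k))).trans
      (Nat.sqrt_le n)
  obtain ⟨p, q, s, e, h0, hp, hq⟩ := Nat.find_spec ex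
  rw [← hM] at hp hq
  have M1 : 1 ≤ M := by omega
  have hmax : p.natAbs = M ∨ q.natAbs = M := by
    by_contra hh
    exact Nat.find_min ex (show M - 1 < M by omega) ⟨p, q, s, e, h0, by omega, by omega⟩
  obtain ⟨a0, j0, i0, bez⟩ : ∃ a0 j0 i0 : ℤ, a0 * s + p * j0 - q * i0 = 1 := by
    set g := Int.gcd p q with hg
    set d := Int.gcd s g with hd
    have g0 : 0 < g := Int.gcd_pos_iff.2 h0
    have d0 : 0 < d := Int.gcd_pos_iff.2 (Or.inr (by omega))
    have d1 : d = 1 := by
      by_contra hh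
      obtain ⟨s', hs'⟩ : (d : ℤ) ∣ s := Int.gcd_dvd_left _ _
      have dg : (d : ℤ) ∣ g := Int.gcd_dvd_right _ _
      obtain ⟨p', hp'⟩ : (d : ℤ) ∣ p := dg.trans (Int.gcd_dvd_left _ _)
      obtain ⟨q', hq'⟩ : (d : ℤ) ∣ q := dg.trans (Int.gcd_dvd_right _ _)
      have k1 : p.natAbs = d * p'.natAbs := by rw [hp', Int.natAbs_mul]; simp
      have k2 : q.natAbs = d * q'.natAbs := by rw [hq', Int.natAbs_mul]; simp
      have d2 : 2 ≤ d := by omega
      refine Nat.find_min ex (show M / 2 < M by omega) ⟨p', q', s', ?_, ?_, ?_, ?_⟩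
      · refine mul_left_cancel₀ (show (d : ℤ) ≠ 0 by omega) ?_
        rw [hs', hp', hq'] at e
        linear_combination e
      · by_contra hh
        push Not at hh
        rw [hp', hq', hh.1, hh.2] at h0
        simp at h0
      · have := Nat.mul_le_mul_right p'.natAbs d2
        omega
      · have := Nat.mul_le_mul_right q'.natAbs d2
        omega
    have b1 := Int.gcd_eq_gcd_ab p q
    have b2 := Int.gcd_eq_gcd_ab s g
    rw [← hd, d1] at b2
    rw [← hg] at b1
    refine ⟨Int.gcdA s g, Int.gcdA p q * Int.gcdB s g, -(Int.gcdB p q * Int.gcdB s g), ?_⟩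
    push_cast at b2
    linear_combination -b2 - Int.gcdB s g * b1
  obtain ⟨β, ε, hε, hβ⟩ : ∃ (β : ℤ) (ε : ℕ), ε ≤ 1 ∧ 2 * β - (p - q) = ε :=
    ⟨(p - q + 1) / 2, ((p - q) % 2).toNat, by omega, by omega⟩
  have h3 : ε = 0 ∨ 3 ≤ M := by
    by_contra hh
    have dv : ∀ t : ℤ, t = n * s → -n < t → t < n → t = 0 := fun t ht a b =>
      Int.eq_zero_of_abs_lt_dvd ⟨s, ht⟩ (abs_lt.2 ⟨a, b⟩)
    have hp1 : -2 ≤ p := by omega
    have hp2 : p ≤ 2 := by omega
    have := dv _ e
    interval_cases p <;> omega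
  have gen : ∀ α : ℤ, p * (2 * α * q + (2 * β * (a0 * k + n * j0) - n))
      - q * (2 * α * p + (2 * β * (a0 + n * i0) - n)) = n * ε := by
    intro α
    linear_combination 2 * β * a0 * e + 2 * β * n * bez + n * hβ
  have out : ∀ α : ℤ, (2 * α * p + (2 * β * (a0 + n * i0) - n)).natAbs +
      (2 * α * q + (2 * β * (a0 * k + n * j0) - n)).natAbs + 2 * (4 * n / 5) ≤ 2 * n + 1 →
      ∃ a j : ℤ, (2 * a - n).natAbs + (2 * a * k - n - 2 * n * j).natAbs + 2 * (4 * n / 5)
        ≤ 2 * n + 1 := by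
    intro α h
    refine ⟨α * p + β * (a0 + n * i0), α * s + β * (i0 * k - j0), ?_⟩
    convert h using 4
    · ring
    · linear_combination 2 * α * e
  rcases hmax with h | h
  · obtain ⟨α, hα⟩ := near p (2 * β * (a0 + n * i0) - n) (by omega)
    refine out α (finish hn hMn M1 (by omega) ?_ hε h3)
    have g := gen α
    generalize 2 * α * p + (2 * β * (a0 + n * i0) - n) = b at *
    generalize 2 * α * q + (2 * β * (a0 * k + n * j0) - n) = c at *
    have e1 : p * c = n * ε + q * b := by linarith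
    have e2 := Int.natAbs_add_le ((n : ℤ) * ε) (q * b)
    rw [← e1, Int.natAbs_mul, Int.natAbs_mul, Int.natAbs_mul, h] at e2
    simp only [Int.natAbs_natCast] at e2
    have := Nat.mul_le_mul hq (hα.trans hp)
    omega
  · obtain ⟨α, hα⟩ := near q (2 * β * (a0 * k + n * j0) - n) (by omega)
    refine out α ?_
    rw [add_comm (Int.natAbs _)]
    refine finish hn hMn M1 (by omega) ?_ hε h3
    have g := gen α
    generalize 2 * α * p + (2 * β * (a0 + n * i0) - n) = b at *
    generalize 2 * α * q + (2 * β * (a0 * k + n * j0) - n) = c at *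
    have e1 : q * b = p * c - n * ε := by linarith
    have e2 := Int.natAbs_sub_le (p * c) ((n : ℤ) * ε)
    rw [← e1, Int.natAbs_mul, Int.natAbs_mul, Int.natAbs_mul, h] at e2
    simp only [Int.natAbs_natCast] at e2
    have := Nat.mul_le_mul hp (hα.trans hq)
    omega

def dist (x y : ℕ) : ℕ := x - y + (y - x)

def chk : Bool := (List.range 100).all fun n => (List.range 50).all fun k =>
  decide (k = 0 ∨ n ≤ 2 * k + 1 ∨ k = 2) || (List.range n).any fun a =>
    decide (dist (2 * a) n + dist (2 * a * k % (2 * n)) n + 2 * (4 * n / 5) ≤ 2 * n + 1)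

lemma chk_true : chk = true := by decide +kernel

lemma small0 : ∀ n < 100, ∀ k < 50, 1 ≤ k → 2 * k + 1 < n → k ≠ 2 →
    ∃ a < n, dist (2 * a) n + dist (2 * a * k % (2 * n)) n + 2 * (4 * n / 5) ≤ 2 * n + 1 := by
  intro n hn k hk h1 h2 h3
  have := chk_true
  simp only [chk, List.all_eq_true, List.mem_range, Bool.or_eq_true, decide_eq_true_eq,
    List.any_eq_true] at this
  exact (this n hn k hk).resolve_left (by omega)

lemma small {n k : ℕ} (hn : n < 100) (hk : 1 ≤ k) (hkn : 2 * k + 1 < n) (h2 : k ≠ 2) :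
    ∃ a j : ℤ, (2 * a - n).natAbs + (2 * a * k - n - 2 * n * j).natAbs + 2 * (4 * n / 5)
      ≤ 2 * n + 1 := by
  obtain ⟨a, -, h⟩ := small0 n hn k (by omega) hk hkn h2
  refine ⟨a, (2 * a * k / (2 * n) : ℕ), ?_⟩
  have e := Nat.mod_add_div (2 * a * k) (2 * n)
  have : (2 * (a : ℤ) * k - n - 2 * n * (2 * a * k / (2 * n) : ℕ)) =
      (2 * a * k % (2 * n) : ℕ) - n := by
    zify at e ⊢
    linarith
  rw [this]
  unfold dist at h
  omega

def inA (n i : ℕ) : Prop :=
  (i % 5 = 0 ∧ i + 1 < n) ∨ (i % 5 = 2 ∧ i + 1 < n)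

def inB (n i : ℕ) : Prop :=
  i % 5 = 3 ∨ i % 5 = 4 ∨ (i % 5 = 2 ∧ i + 1 = n)

instance (n i : ℕ) : Decidable (inA n i) := by unfold inA; infer_instance
instance (n i : ℕ) : Decidable (inB n i) := by unfold inB; infer_instance

lemma cardf {n : ℕ} [NeZero n] (P : ℕ → Prop) [DecidablePred P] :
    (univ.filter (fun i : ZMod n => P i.val)).card = Nat.count P n := by
  rw [Nat.count_eq_card_filter_range]
  refine card_bij (fun i _ => i.val) ?_ ?_ ?_
  · intro i hi
    simp only [mem_filter, mem_univ, true_and, mem_range] at hi ⊢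
    exact ⟨ZMod.val_lt i, hi⟩
  · intro a _ b _ h; exact ZMod.val_injective _ h
  · intro b hb
    simp only [mem_filter, mem_range] at hb
    exact ⟨(b : ZMod n), by simp [ZMod.val_cast_of_lt hb.1, hb.2], ZMod.val_cast_of_lt hb.1⟩

lemma two {n : ℕ} (hn : 3 ≤ n) : Good n 1 2 (4 * n / 5) := by
  have : NeZero n := ⟨by omega⟩
  have va : ∀ (i : ZMod n) (s : ℕ), s < n →
      (i + s).val = if i.val + s < n then i.val + s else i.val + s - n := by
    intro i s hs
    have := ZMod.val_lt i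
    rw [ZMod.val_add, ZMod.val_cast_of_lt hs]
    split_ifs with h
    · exact Nat.mod_eq_of_lt h
    · rw [Nat.mod_eq_sub_mod (by omega), Nat.mod_eq_of_lt (by omega)]
  refine ⟨univ.filter (fun i => inA n i.val), univ.filter (fun i => inB n i.val), ?_, ?_, ?_, ?_⟩
  · rw [disjoint_filter]
    intro i _
    unfold inA inB
    omega
  · intro i hi hi'
    have h := va i 1 (by omega)
    have := ZMod.val_lt i
    have a := (mem_filter.1 hi).2
    have b := (mem_filter.1 hi').2
    rw [Nat.cast_one] at h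
    rw [h] at b
    unfold inA at a b
    split_ifs at b <;> omega
  · intro i hi hi'
    have h := va i 2 (by omega)
    have := ZMod.val_lt i
    have a := (mem_filter.1 hi).2
    have b := (mem_filter.1 hi').2
    rw [Nat.cast_ofNat] at h
    rw [h] at b
    unfold inB at a b
    split_ifs at b <;> omega
  · rw [cardf (inA n), cardf (inB n)]
    have : ∀ m, m < n → Nat.count (inA n) m + Nat.count (inB n) m + (m + 3) / 5 = m := by
      intro m
      induction m with
      | zero => simp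
      | succ m ih =>
        intro hm
        have := ih (by omega)
        rw [Nat.count_succ, Nat.count_succ]
        generalize Nat.count (inA n) m = X at *
        generalize Nat.count (inB n) m = Y at *
        split_ifs with a b b <;> unfold inA at a <;> unfold inB at b <;> omega
    obtain ⟨m, rfl⟩ : ∃ m, n = m + 1 := ⟨n - 1, by omega⟩
    have := this m (by omega)
    rw [Nat.count_succ, Nat.count_succ]
    generalize Nat.count (inA (m + 1)) m = X at *
    generalize Nat.count (inB (m + 1)) m = Y at *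
    have hr : m % 5 = 0 ∨ m % 5 = 1 ∨ m % 5 = 2 ∨ m % 5 = 3 ∨ m % 5 = 4 := by omega
    split_ifs with a b b <;> unfold inA at a <;> unfold inB at b <;>
      rcases hr with hr | hr | hr | hr | hr <;> omega

lemma half {k : ℕ} (hk : 1 ≤ k) : Good (2 * k + 1) 1 k (4 * (2 * k + 1) / 5) := by
  obtain ⟨A, B, h1, h2, h3, h4⟩ := two (show 3 ≤ 2 * k + 1 by omega)
  have e : (2 : ZMod (2 * k + 1)) * k + 1 = 0 := by
    have := ZMod.natCast_self (2 * k + 1)
    push_cast at this
    exact this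
  have inj : Function.Injective (fun i : ZMod (2 * k + 1) => -(k : ZMod (2 * k + 1)) * i) := by
    intro a b h
    simp only at h
    linear_combination 2 * h + (a - b) * e
  refine ⟨B.image (fun i => -(k : ZMod (2 * k + 1)) * i),
    A.image (fun i => -(k : ZMod (2 * k + 1)) * i), (disjoint_image inj).2 h1.symm, ?_, ?_, ?_⟩
  · intro i hi hi'
    obtain ⟨a, ha, rfl⟩ := mem_image.1 hi
    obtain ⟨b, hb, e'⟩ := mem_image.1 hi'
    have : b = a + 2 := inj (by simp only; linear_combination e' + e)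
    exact h3 a ha (this ▸ hb)
  · intro i hi hi'
    obtain ⟨a, ha, rfl⟩ := mem_image.1 hi
    obtain ⟨b, hb, e'⟩ := mem_image.1 hi'
    have : a = b + 1 := inj (by simp only; linear_combination -e')
    exact h2 b hb (this ▸ ha)
  · rw [card_image_of_injective _ inj, card_image_of_injective _ inj]; omega

lemma good {n k : ℕ} (hk : 1 ≤ k) (hkn : 2 * k < n) : Good n 1 k (4 * n / 5) := by
  have : NeZero n := ⟨by omega⟩
  by_cases h2 : k = 2
  · subst h2; exact_mod_cast two (show 3 ≤ n by omega)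
  by_cases h3 : n = 2 * k + 1
  · subst h3; exact half hk
  by_cases h : n < 100
  · obtain ⟨a, j, h⟩ := small h hk (by omega) h2
    exact avg k a j _ h
  · obtain ⟨a, j, h⟩ := lattice (by omega) hk (show 2 * k + 1 < n by omega) h2
    exact avg k a j _ h

theorem result (n k : ℕ) (_hn : 3 ≤ n) (hk : 1 ≤ k) (hkn : 2 * k < n) :
    (GP n k).vertexCoverNum ≤ ((n + (n + 4) / 5 : ℕ) : ℕ∞) ∧ 4 * n / 5 ≤ (GP n k).indepNum := by
  have : NeZero n := ⟨by omega⟩
  obtain ⟨A, B, h1, h2, h3, h4⟩ := good hk hkn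
  set S : Finset (ZMod n × Bool) := A ×ˢ {false} ∪ B ×ˢ {true} with hS
  have cS : S.card = A.card + B.card := by
    rw [hS, card_union_of_disjoint (by simp [disjoint_left])]; simp
  have rel : ∀ x y, x ∈ S → y ∈ S → ¬ ((x.2 = false ∧ y.2 = false ∧ y.1 = x.1 + 1) ∨
      (x.2 = false ∧ y.2 = true ∧ y.1 = x.1) ∨
      (x.2 = true ∧ y.2 = true ∧ y.1 = x.1 + (k : ZMod n))) := by
    rintro ⟨a, s⟩ ⟨b, t⟩ hx hy (⟨rfl, rfl, rfl⟩ | ⟨rfl, rfl, rfl⟩ | ⟨rfl, rfl, rfl⟩) <;>
      simp [hS] at hx hy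
    · exact h2 _ hx hy
    · exact disjoint_left.1 h1 hx hy
    · exact h3 _ hx hy
  have ind : ∀ x y, x ∈ S → y ∈ S → ¬ (GP n k).Adj x y := by
    intro x y hx hy h
    rcases ((SimpleGraph.fromRel_adj _ _ _).1 h).2 with h | h
    · exact rel x y hx hy h
    · exact rel y x hy hx h
  constructor
  · have cov : (GP n k).IsVertexCover (↑(Sᶜ) : Set (ZMod n × Bool)) := by
      intro x y h
      by_contra hh
      simp only [coe_compl, Set.mem_compl_iff, mem_coe, not_or, not_not] at hh
      exact ind x y hh.1 hh.2 h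
    refine cov.vertexCoverNum_le.trans ?_
    rw [Set.encard_coe_eq_coe_finsetCard, card_compl]
    simp only [Fintype.card_prod, ZMod.card, Fintype.card_bool, Nat.cast_le]
    omega
  · have : (GP n k).IsIndepSet (S : Set (ZMod n × Bool)) := fun x hx y hy _ => ind x y hx hy
    exact (h4.trans cS.ge).trans this.card_le_indepNum

end Pool.Agent.Results.MP_86031e_co.FourFifths
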